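import Mathlib
import Pool.Agent.Lib.MP_0f5a55_nt.EX.Cubic

/-!
Almost all abelian fields of exponent three. Let `V` be any group of Dirichlet characters (of any modulus `N`) whose
cubes are trivial. The subgroups `W` of `V` of order `3 ^ s` are the character groups of the subfields with Galois group
`(Z/3)^s` of the abelian field belonging to `V`, and the Dedekind zeta function of such a field is the product of the
L-functions of the primitive characters belonging to `W`. For all these fields but a proportion of at most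
`K |V| ^ (-κ)` (`K`, `κ > 0` depend on `s` only) infinitely many `g > 0` occur an odd number of times as heights of
zeros on the critical line. Unconditional; the product may even be multiplied with any other function.
-/

open Complex Filter Topology

namespace Pool.Agent.Results.MP_0f5a55_nt.AlmostAllCubic

/-- The multiplicity of `1/2 + ig` as a zero of `L(s, χ)` (`0` if it is not a zero), `χ` a Dirichlet character. -/
noncomputable def mult {N : ℕ} [NeZero N] (χ : DirichletCharacter ℂ N) (g : ℝ) : ℕ :=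
  analyticOrderNatAt (DirichletCharacter.LFunction χ) (1/2 + g * I)

/-- For every `s ≥ 1` there are `K, κ > 0` such that for every modulus `N`, every group `V` of Dirichlet characters
modulo `N` with `χ ^ 3 = 1` for all `χ ∈ V`, and every function `n` from the reals to the integers: the number of the
subgroups `W` of `V` of order `3 ^ s` for which only finitely many `g > 0` have `n g` plus the sum of `mult χ g` over
`χ ∈ W` odd is at most `K |V| ^ (-κ)` times the number of all subgroups of `V` of order `3 ^ s`. -/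
theorem result (s : ℕ) (hs : 1 ≤ s) : ∃ K κ : ℝ, 0 < K ∧ 0 < κ ∧ ∀ (N : ℕ) [NeZero N]
    (V : Subgroup (DirichletCharacter ℂ N)), (∀ χ ∈ V, χ ^ 3 = 1) → ∀ n : ℝ → ℤ,
      ({W : Subgroup (DirichletCharacter ℂ N) | W ≤ V ∧ Nat.card W = 3 ^ s ∧
        {g : ℝ | 0 < g ∧ Odd (n g + ∑ᶠ χ ∈ W, (mult χ g : ℤ))}.Finite}.ncard : ℝ) ≤
          K * (Nat.card V : ℝ) ^ (-κ) *
            ({W : Subgroup (DirichletCharacter ℂ N) | W ≤ V ∧ Nat.card W = 3 ^ s}.ncard : ℝ) :=
  P0F.CN.cubic s hs

/-- The multiplicity does not depend on the modulus: it is the one of the primitive character. -/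
theorem mult_changeLevel {M N : ℕ} [NeZero M] [NeZero N] (h : M ∣ N) (ψ : DirichletCharacter ℂ M) (g : ℝ) :
    mult (DirichletCharacter.changeLevel h ψ) g = mult ψ g := by
  have hne : (1/2 + g * I : ℂ) ≠ 1 := by
    intro h
    have := congrArg Complex.re h
    norm_num at this
  have h1 : DirichletCharacter.LFunction (DirichletCharacter.changeLevel h ψ) =ᶠ[𝓝 (1/2 + g * I : ℂ)]
      (DirichletCharacter.LFunction ψ * fun s : ℂ => ∏ p ∈ N.primeFactors, (1 - ψ p * (p : ℂ) ^ (-s))) := by
    filter_upwards [isOpen_compl_singleton.mem_nhds (show (1/2 + g * I : ℂ) ∈ ({1}ᶜ : Set ℂ) from hne)] with s hs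
    exact DirichletCharacter.LFunction_changeLevel h ψ (Or.inr hs)
  have h2 : AnalyticAt ℂ (fun s : ℂ => ∏ p ∈ N.primeFactors, (1 - ψ p * (p : ℂ) ^ (-s))) (1/2 + g * I) := by
    have hd : Differentiable ℂ (fun s : ℂ => ∏ p ∈ N.primeFactors, (1 - ψ p * (p : ℂ) ^ (-s))) := by
      refine Differentiable.fun_finsetProd (fun p hp => ?_)
      have : NeZero p := ⟨(Nat.prime_of_mem_primeFactors hp).ne_zero⟩
      fun_prop
    exact hd.analyticAt _
  have h3 : (∏ p ∈ N.primeFactors, (1 - ψ p * (p : ℂ) ^ (-(1/2 + g * I : ℂ)))) ≠ 0 := by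
    rw [Finset.prod_ne_zero_iff]
    intro p hp
    exact P0F.euler_ne _ (DirichletCharacter.norm_le_one _ _) (Nat.prime_of_mem_primeFactors hp) _ (by norm_num)
  have h4 : AnalyticAt ℂ (DirichletCharacter.LFunction ψ) (1/2 + g * I) := by
    have hd : DifferentiableOn ℂ (DirichletCharacter.LFunction ψ) {1}ᶜ := fun s hs =>
      (DirichletCharacter.differentiableAt_LFunction ψ s (Or.inl hs)).differentiableWithinAt
    exact hd.analyticAt (isOpen_compl_singleton.mem_nhds hne)
  unfold mult analyticOrderNatAt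
  rw [analyticOrderAt_congr h1, analyticOrderAt_mul h4 h2, h2.analyticOrderAt_eq_zero.2 h3, add_zero]

/-- The case `n = 0` with a small proportion: for `|V| ≥ N₀(s, ε)` all but at most the proportion `ε` of the subgroups
`W` of order `3 ^ s` have infinitely many `g > 0` with an odd sum of multiplicities. -/
theorem almost_all (s : ℕ) (hs : 1 ≤ s) {ε : ℝ} (hε : 0 < ε) : ∃ N₀ : ℕ, ∀ (N : ℕ) [NeZero N]
    (V : Subgroup (DirichletCharacter ℂ N)), (∀ χ ∈ V, χ ^ 3 = 1) → N₀ ≤ Nat.card V →
      ({W : Subgroup (DirichletCharacter ℂ N) | W ≤ V ∧ Nat.card W = 3 ^ s ∧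
        ¬ {g : ℝ | 0 < g ∧ Odd (∑ᶠ χ ∈ W, mult χ g)}.Infinite}.ncard : ℝ) ≤
          ε * ({W : Subgroup (DirichletCharacter ℂ N) | W ≤ V ∧ Nat.card W = 3 ^ s}.ncard : ℝ) := by
  obtain ⟨K, κ, hK, hκ, h⟩ := result s hs
  have hlim : Tendsto (fun m : ℕ => K * (m : ℝ) ^ (-κ)) atTop (𝓝 0) := by
    have := ((tendsto_rpow_neg_atTop hκ).comp tendsto_natCast_atTop_atTop).const_mul K
    simpa using this
  obtain ⟨N₀, hN₀⟩ := eventually_atTop.1 (hlim.eventually_le_const hε)
  refine ⟨N₀, fun N _ V hV hcard => ?_⟩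
  have h1 := h N V hV 0
  have e : {W : Subgroup (DirichletCharacter ℂ N) | W ≤ V ∧ Nat.card W = 3 ^ s ∧
        ¬ {g : ℝ | 0 < g ∧ Odd (∑ᶠ χ ∈ W, mult χ g)}.Infinite} =
      {W : Subgroup (DirichletCharacter ℂ N) | W ≤ V ∧ Nat.card W = 3 ^ s ∧
        {g : ℝ | 0 < g ∧ Odd ((0 : ℝ → ℤ) g + ∑ᶠ χ ∈ W, (mult χ g : ℤ))}.Finite} := by
    have h2 : ∀ (W : Subgroup (DirichletCharacter ℂ N)) (g : ℝ),
        ((∑ᶠ χ ∈ W, mult χ g : ℕ) : ℤ) = ∑ᶠ χ ∈ W, (mult χ g : ℤ) := by
      intro W g
      have := AddMonoidHom.map_finsum_mem (fun χ : DirichletCharacter ℂ N => mult χ g)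
        (Nat.castAddMonoidHom ℤ) (Set.toFinite (W : Set (DirichletCharacter ℂ N)))
      exact this
    ext W
    simp only [Set.mem_ofPred_eq, Set.not_infinite, Pi.zero_apply, zero_add, ← h2, Int.odd_coe_nat]
  rw [e]
  exact h1.trans (mul_le_mul_of_nonneg_right (hN₀ _ hcard) (Nat.cast_nonneg _))

end Pool.Agent.Results.MP_0f5a55_nt.AlmostAllCubic
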