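import Mathlib
import Pool.Agent.Lib.MP_0f5a55_nt.PP.Two

/-!
Almost all generalised dihedral fields. Let `K` be any quadratic field and `V` any group of ring class characters of `K`
(of any modulus `f`) whose cubes are trivial. The subgroups `W` of `V` of order `3 ^ s` belong to the Galois extensions `F`
of `ℚ` with `K ⊆ F` and group `(Z/3)^s ⋊ {±1}`: the irreducible characters of degree 2 of the group correspond to the
pairs `{ψ, ψ⁻¹}` of `W`, the other two are `1` and the quadratic character of `K`. For all but a proportion of at most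
`C |V| ^ (-κ)` (`C`, `κ > 0` depend on `s` only) infinitely many `g > 0` occur an odd number of times as heights of zeros on
the critical line; this remains true if any fixed function is added. Unconditional.
-/

open Complex
open scoped ComplexConjugate NumberField

namespace Pool.Agent.Results.MP_0f5a55_nt.AlmostAllDihedral

variable {K : Type} [Field K] [NumberField K]

/-- `α` lies in the order `ℤ + f𝓞`. -/
def InOrder (f : ℕ) (α : 𝓞 K) : Prop := ∃ m : ℤ, (f : 𝓞 K) ∣ α - m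

/-- `I` is nonzero and prime to `f`. -/
def PrimeTo (f : ℕ) (I : Ideal (𝓞 K)) : Prop := I ≠ ⊥ ∧ IsCoprime I (Ideal.span {(f : 𝓞 K)})

/-- `ψ` is a ring class character of `K` modulo `f`: a character of the group of ideals prime to `f` that is trivial on the
principal ideals `(α)` prime to `f` with `α` in the order of conductor `f`. It need not be primitive. -/
structure IsRingClassChar (f : ℕ) (ψ : Ideal (𝓞 K) →*₀ ℂ) : Prop where
  pos : 0 < f
  cop : ∀ I, PrimeTo f I → ‖ψ I‖ = 1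
  ncop : ∀ I, ¬ PrimeTo f I → ψ I = 0
  triv : ∀ α : 𝓞 K, InOrder f α → PrimeTo f (Ideal.span {α}) → ψ (Ideal.span {α}) = 1

/-- `V` is a group of ring class characters modulo `f` whose cubes are trivial. -/
structure IsCubicGroup (f : ℕ) (V : Set (Ideal (𝓞 K) →*₀ ℂ)) : Prop where
  ne : V.Nonempty
  rc : ∀ ψ ∈ V, IsRingClassChar f ψ
  mul : ∀ ψ ∈ V, ∀ φ ∈ V, ψ * φ ∈ V
  cube : ∀ ψ ∈ V, ∀ I, PrimeTo f I → ψ I ^ 3 = 1

/-- The coefficient of `n⁻ˢ` in `L(s, ψ) = ∑ ψ(I) N(I)⁻ˢ`: the sum of `ψ(I)` over the ideals of norm `n`. -/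
noncomputable def coeff (ψ : Ideal (𝓞 K) →*₀ ℂ) (n : ℕ) : ℂ :=
  ∑ᶠ (I : Ideal (𝓞 K)) (_ : Ideal.absNorm I = n), ψ I

open Classical in
/-- `L(s, ψ)`: the entire function that is `∑ ψ(I) N(I)⁻ˢ` for `Re s > 1` (see `lfun_spec`). -/
noncomputable def lfun (ψ : Ideal (𝓞 K) →*₀ ℂ) : ℂ → ℂ :=
  if h : ∃ L : ℂ → ℂ, Differentiable ℂ L ∧ ∀ s : ℂ, 1 < s.re → LSeriesHasSum (coeff ψ) s (L s) then h.choose else 0

/-- The multiplicity of `1/2 + ig` as a zero of `L(s, ψ)`. -/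
noncomputable def mult (ψ : Ideal (𝓞 K) →*₀ ℂ) (g : ℝ) : ℕ := analyticOrderNatAt (lfun ψ) (1/2 + g * I)

/-- The characters of `W` that are not principal. -/
def nonprincipal (f : ℕ) (W : Set (Ideal (𝓞 K) →*₀ ℂ)) : Set (Ideal (𝓞 K) →*₀ ℂ) :=
  {ψ | ψ ∈ W ∧ ∃ I, PrimeTo f I ∧ ψ I ≠ 1}

/-- The subgroups of `V` of order `m`. -/
def subgroups (V : Set (Ideal (𝓞 K) →*₀ ℂ)) (m : ℕ) : Set (Set (Ideal (𝓞 K) →*₀ ℂ)) :=
  {W | W ⊆ V ∧ (∀ ψ ∈ W, ∀ φ ∈ W, ψ * φ ∈ W) ∧ W.ncard = m}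

omit [NumberField K] in
theorem conv {f : ℕ} {V : Set (Ideal (𝓞 K) →*₀ ℂ)} (h : IsCubicGroup f V) : PP.Grp3 f V :=
  ⟨h.ne, fun ψ hψ => ⟨(h.rc ψ hψ).pos, (h.rc ψ hψ).cop, (h.rc ψ hψ).ncop, (h.rc ψ hψ).triv⟩, h.mul, h.cube⟩

/-- For every `s ≥ 1` there are `C, κ > 0` such that for every quadratic field `K`, every group `V` of ring class
characters of `K` modulo `f` whose cubes are trivial, and every function `n` from the reals to the integers: the number of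
the subgroups `W` of `V` of order `3 ^ s` for which `n g` plus half the sum of `mult ψ g` over the nonprincipal `ψ ∈ W`
(that is, plus the sum over the pairs `{ψ, ψ⁻¹}`) is odd for only finitely many `g > 0` is at most `C |V| ^ (-κ)` times the
number of all subgroups of `V` of order `3 ^ s`. -/
theorem result (s : ℕ) (hs : 1 ≤ s) : ∃ C κ : ℝ, 0 < C ∧ 0 < κ ∧ ∀ (K : Type) [Field K] [NumberField K],
    Module.finrank ℚ K = 2 → ∀ (f : ℕ) (V : Set (Ideal (𝓞 K) →*₀ ℂ)), IsCubicGroup f V → ∀ n : ℝ → ℤ,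
      ({W | W ∈ subgroups V (3 ^ s) ∧
        {g : ℝ | 0 < g ∧ Odd (n g + (∑ᶠ ψ ∈ nonprincipal f W, (mult ψ g : ℤ)) / 2)}.Finite}.ncard : ℝ) ≤
          C * (V.ncard : ℝ) ^ (-κ) * ((subgroups V (3 ^ s)).ncard : ℝ) := by
  obtain ⟨C, κ, hC, hκ, h⟩ := PP.dih_char PP.two s hs
  refine ⟨C, κ, hC, hκ, fun K _ _ h2 f V hV n => ?_⟩
  have h1 := h K h2 f V (conv hV) n
  have e : {W | W ∈ subgroups V (3 ^ s) ∧
        {g : ℝ | 0 < g ∧ Odd (n g + (∑ᶠ ψ ∈ nonprincipal f W, (mult ψ g : ℤ)) / 2)}.Finite} =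
      {W : Set (Ideal (𝓞 K) →*₀ ℂ) | W ⊆ V ∧ (∀ ψ ∈ W, ∀ φ ∈ W, ψ * φ ∈ W) ∧ W.ncard = 3 ^ s ∧
        {g : ℝ | 0 < g ∧ Odd (n g + (∑ᶠ ψ ∈ {ψ | ψ ∈ W ∧ PP.NP f ψ}, (PP.mu (HC.ac ψ) g : ℤ)) / 2)}.Finite} := by
    ext W
    constructor
    · rintro ⟨⟨a, b, c⟩, d⟩
      exact ⟨a, b, c, d⟩
    · rintro ⟨a, b, c, d⟩
      exact ⟨⟨a, b, c⟩, d⟩
  rw [e]
  exact h1

/-- `lfun ψ` is what its name says: for a nonprincipal ring class character whose cube is trivial it is entire and equal to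
`∑ ψ(I) N(I)⁻ˢ` for `Re s > 1`. -/
theorem lfun_spec {f : ℕ} (h2 : Module.finrank ℚ K = 2) {ψ : Ideal (𝓞 K) →*₀ ℂ} (hψ : IsRingClassChar f ψ)
    (h3 : ∀ I, PrimeTo f I → ψ I ^ 3 = 1) (h1 : ∃ I, PrimeTo f I ∧ ψ I ≠ 1) :
    Differentiable ℂ (lfun ψ) ∧ ∀ s : ℂ, 1 < s.re → LSeriesHasSum (coeff ψ) s (lfun ψ s) :=
  PP.lfun_spec h2 ⟨hψ.pos, hψ.cop, hψ.ncop, hψ.triv⟩ h3 h1

/-- `ψ` and `ψ²` have the same L-function, so that half the sum in `result` is an integer: the sum over the pairs. -/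
theorem mult_sq {f : ℕ} (h2 : Module.finrank ℚ K = 2) {V : Set (Ideal (𝓞 K) →*₀ ℂ)} (hV : IsCubicGroup f V)
    {ψ : Ideal (𝓞 K) →*₀ ℂ} (hψ : ψ ∈ V) (g : ℝ) : mult (ψ * ψ) g = mult ψ g := by
  have : coeff (ψ * ψ) = coeff ψ := PP.ac_sq h2 (conv hV) hψ
  unfold mult lfun
  rw [this]

end Pool.Agent.Results.MP_0f5a55_nt.AlmostAllDihedral
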