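import Mathlib
import Pool.Agent.Lib.MP_0f5a55_nt.PP.Uni2

/-!
Products of L-functions of primitive Dirichlet characters (degree 1) and of primitive ring class characters of
quadratic fields (degree 2; dihedral Artin L-functions). Two products which differ in factors of total degree at most
four, times an arbitrary third factor: one of the two has infinitely many critical zeros of odd multiplicity.
Unconditional.
-/

set_option autoImplicit false

open Complex
open scoped ComplexConjugate NumberField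

namespace Pool.Agent.Results.MP_0f5a55_nt.DegreeFour

section one

variable {K : Type} [Field K] [NumberField K]

/-- `α` lies in the order `ℤ + f𝓞`. -/
def InOrder (f : ℕ) (α : 𝓞 K) : Prop := ∃ m : ℤ, (f : 𝓞 K) ∣ α - m

/-- `I` is nonzero and prime to `f`. -/
def PrimeTo (f : ℕ) (I : Ideal (𝓞 K)) : Prop := I ≠ ⊥ ∧ IsCoprime I (Ideal.span {(f : 𝓞 K)})

/-- `ψ` is a primitive ring class character of conductor `f` of `K`: a character of the group of ideals prime to `f` that
is trivial on the principal ideals `(α)`, `α` in the order of conductor `f`, and for no prime `p ∣ f` on all `(α)`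
(prime to `f`) with `α` in the order of conductor `f/p`. -/
structure IsRingClassChar (f : ℕ) (ψ : Ideal (𝓞 K) →*₀ ℂ) : Prop where
  pos : 0 < f
  cop : ∀ I, PrimeTo f I → ‖ψ I‖ = 1
  ncop : ∀ I, ¬ PrimeTo f I → ψ I = 0
  triv : ∀ α : 𝓞 K, InOrder f α → PrimeTo f (Ideal.span {α}) → ψ (Ideal.span {α}) = 1
  prim : ∀ p : ℕ, p.Prime → p ∣ f →
    ∃ α : 𝓞 K, InOrder (f / p) α ∧ PrimeTo f (Ideal.span {α}) ∧ ψ (Ideal.span {α}) ≠ 1

/-- The coefficient of `n⁻ˢ` in `L(s, ψ) = ∑ ψ(I) N(I)⁻ˢ`: the sum of `ψ(I)` over the ideals of norm `n`. -/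
noncomputable def coeff (ψ : Ideal (𝓞 K) →*₀ ℂ) (n : ℕ) : ℂ :=
  ∑ᶠ (I : Ideal (𝓞 K)) (_ : Ideal.absNorm I = n), ψ I

variable (K) in
/-- The primitive ring class characters `ψ` of `K`, of all conductors, with `ψ² ≠ 1`. -/
structure RingPrim : Type where
  chr : Ideal (𝓞 K) →*₀ ℂ
  prim : ∃ f, IsRingClassChar f chr
  sq_ne : ∃ I, chr I ≠ 0 ∧ chr I ^ 2 ≠ 1

/-- `φ` is the complex conjugate of `ψ`. -/
def IsConj (ψ φ : RingPrim K) : Prop := ∀ I, φ.chr I = conj (ψ.chr I)

/-- `ψ⁴ = 1` (on the ideals prime to the conductor). -/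
def FourthPowOne (ψ : RingPrim K) : Prop := ∀ I, ψ.chr I ≠ 0 → ψ.chr I ^ 4 = 1

omit [NumberField K] in
theorem conv {f : ℕ} {ψ : Ideal (𝓞 K) →*₀ ℂ} (h : IsRingClassChar f ψ) : HC.RingClass f ψ :=
  ⟨h.pos, h.cop, h.ncop, h.triv, h.prim⟩

/-- The same character in the type of the library file. -/
def toRP (ψ : RingPrim K) : PP.RP K := ⟨ψ.chr, by
  obtain ⟨f, h⟩ := ψ.prim
  exact ⟨f, conv h⟩, ψ.sq_ne⟩

omit [NumberField K] in
theorem toRP_inj : Function.Injective (toRP (K := K)) := by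
  rintro ⟨x, _, _⟩ ⟨y, _, _⟩ h
  have : x = y := congrArg (fun z : PP.RP K => z.1) h
  subst this
  rfl

end one

/-- All primitive Dirichlet characters `χ` (modulo `N + 1`, for all `N`) and, for every `i`, all primitive ring class
characters `ψ` of `K i` with `ψ² ≠ 1`. -/
inductive Chars {ι : Type} (K : ι → Type) [∀ i, Field (K i)] : Type
  | dir (N : ℕ) (χ : DirichletCharacter ℂ (N + 1)) (h : χ.IsPrimitive)
  | ring (i : ι) (ψ : RingPrim (K i))

variable {ι : Type} {K : ι → Type} [∀ i, Field (K i)] [∀ i, NumberField (K i)]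

/-- The degree of the L-function: 1 for a Dirichlet character, 2 for a ring class character. -/
def deg : Chars K → ℕ
  | .dir _ _ _ => 1
  | .ring _ _ => 2

/-- The multiplicity of `1/2 + ig` as a zero of the L-function of the character (`L i ψ` is the L-function of the ring
class character `ψ` of `K i`). -/
noncomputable def mult (L : ∀ i, RingPrim (K i) → ℂ → ℂ) (g : ℝ) : Chars K → ℕ
  | .dir _ χ _ => analyticOrderNatAt (DirichletCharacter.LFunction χ) (1/2 + g * I)
  | .ring i ψ => analyticOrderNatAt (L i ψ) (1/2 + g * I)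

/-- The embedding of the index types. -/
def emb : Chars K ↪ P0F.Prim ⊕ (Σ i, PP.RP (K i)) where
  toFun
    | .dir N χ h => .inl ⟨⟨N, χ⟩, h⟩
    | .ring i ψ => .inr ⟨i, toRP ψ⟩
  inj' := by
    rintro (⟨N, χ, h⟩ | ⟨i, ψ⟩) (⟨N', χ', h'⟩ | ⟨j, φ⟩) e
    · have e1 : (⟨N, χ⟩ : Σ n : ℕ, DirichletCharacter ℂ (n + 1)) = ⟨N', χ'⟩ :=
        congrArg Subtype.val (Sum.inl_injective e)
      obtain ⟨rfl, e2⟩ := Sigma.mk.inj_iff.1 e1
      obtain rfl := eq_of_heq e2
      rfl
    · exact (Sum.inl_ne_inr e).elim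
    · exact (Sum.inr_ne_inl e).elim
    · have e1 : (⟨i, toRP ψ⟩ : Σ i, PP.RP (K i)) = ⟨j, toRP φ⟩ := Sum.inr_injective e
      obtain ⟨rfl, e2⟩ := Sigma.mk.inj_iff.1 e1
      rw [toRP_inj (eq_of_heq e2)]

/-- Let `K i` be quadratic fields, real or imaginary, such that `|D_i D_j|` is not a square for `i ≠ j` (`D_i` the
discriminants): neither `K i` and `K j` are isomorphic, nor is `{K i, K j} = {ℚ(√d), ℚ(√-d)}`. Every primitive ring class
character `ψ` of `K i` with `ψ² ≠ 1` has an L-function with an entire continuation `L i ψ`. Let `n` be any function from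
the reals to the integers, and `R`, `R'` different finite sets, of any sizes, of primitive Dirichlet characters and such
ring class characters, whose symmetric difference `D` has total degree at most four; `D` shall not consist of a ring class
character and its conjugate (they have the same L-function), nor of two ring class characters with trivial fourth powers
of different fields. Then for `R` or for `R'` there are infinitely many `g > 0` at which `n g` plus the sum of the
multiplicities of `1/2 + ig` as a zero of the L-functions of the set is odd. -/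
theorem result (ι : Type) (K : ι → Type) [∀ i, Field (K i)] [∀ i, NumberField (K i)]
    (h2 : ∀ i, Module.finrank ℚ (K i) = 2)
    (hK : ∀ i j, i ≠ j → ¬ IsSquare ((NumberField.discr (K i)).natAbs * (NumberField.discr (K j)).natAbs)) :
    ∃ L : ∀ i, RingPrim (K i) → ℂ → ℂ,
      (∀ i ψ, Differentiable ℂ (L i ψ) ∧ ∀ s : ℂ, 1 < s.re → LSeriesHasSum (coeff ψ.chr) s (L i ψ s)) ∧
      ∀ (n : ℝ → ℤ) (R R' D : Finset (Chars K)), R ≠ R' → (∀ x, x ∈ D ↔ ¬ (x ∈ R ↔ x ∈ R')) →
        ∑ x ∈ D, deg x ≤ 4 →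
        (∀ i ψ φ, .ring i ψ ∈ D → .ring i φ ∈ D → ¬ IsConj ψ φ) →
        (∀ i j ψ φ, i ≠ j → .ring i ψ ∈ D → .ring j φ ∈ D → ¬ (FourthPowOne ψ ∧ FourthPowOne φ)) →
        {g : ℝ | 0 < g ∧ Odd (n g + ∑ x ∈ R, (mult L g x : ℤ))}.Infinite ∨
          {g : ℝ | 0 < g ∧ Odd (n g + ∑ x ∈ R', (mult L g x : ℤ))}.Infinite := by
  classical
  have hex : ∀ i, ∃ L : PP.RP (K i) → ℂ → ℂ, PP.Cont L := fun i => PP.exists_cont (h2 i)
  choose L hL using hex
  refine ⟨fun i ψ => L i (toRP ψ), fun i ψ => ⟨(hL i (toRP ψ)).1, (hL i (toRP ψ)).2⟩,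
    fun n R R' D hne hD h4 hs hd => ?_⟩
  have hm : ∀ (S : Finset (Chars K)) (g : ℝ),
      ∑ x ∈ S, (mult (fun i ψ => L i (toRP ψ)) g x : ℤ) = ∑ y ∈ S.map emb, (PP.mltF L y g : ℤ) := by
    intro S g
    rw [Finset.sum_map]
    refine Finset.sum_congr rfl fun x _ => ?_
    rcases x with ⟨N, χ, h⟩ | ψ <;> rfl
  simp only [hm]
  have hDs : symmDiff (R : Set (Chars K)) (R' : Set (Chars K)) = (D : Set (Chars K)) := by
    ext x
    rw [Finset.mem_coe, hD, Set.mem_symmDiff, Finset.mem_coe, Finset.mem_coe]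
    tauto
  have hmem : ∀ (i : ι) (x : PP.RP (K i)), Sum.inr ⟨i, x⟩ ∈ D.map emb →
      ∃ a : RingPrim (K i), Chars.ring i a ∈ D ∧ toRP a = x := by
    intro i x hx
    obtain ⟨a, ha, ea⟩ := Finset.mem_map.1 hx
    rcases a with ⟨N, χ, h⟩ | ⟨j, a⟩
    · exact (Sum.inl_ne_inr ea).elim
    · have e1 : (⟨j, toRP a⟩ : Σ i, PP.RP (K i)) = ⟨i, x⟩ := Sum.inr_injective ea
      obtain ⟨rfl, e2⟩ := Sigma.mk.inj_iff.1 e1
      exact ⟨a, ha, eq_of_heq e2⟩
  refine PP.unifiedF h2 hK hL n (R.map emb) (R'.map emb) (D.map emb) ?_ ?_ ?_ ?_ ?_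
  · intro h
    exact hne (Finset.map_injective emb h)
  · rw [Finset.coe_map, Finset.coe_map, Finset.coe_map, ← Set.image_symmDiff emb.injective, hDs]
  · rw [Finset.sum_map]
    refine le_trans (le_of_eq (Finset.sum_congr rfl fun x _ => ?_)) h4
    rcases x with ⟨N, χ, h⟩ | ψ <;> rfl
  · intro i x y hx hy hxy
    obtain ⟨a, ha, rfl⟩ := hmem i x hx
    obtain ⟨b, hb, rfl⟩ := hmem i y hy
    have h := hs i b a hb ha
    unfold IsConj at h
    push Not at h
    exact h
  · intro i j x y hij hx hy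
    obtain ⟨a, ha, rfl⟩ := hmem i x hx
    obtain ⟨b, hb, rfl⟩ := hmem j y hy
    have h := hd i j a b hij ha hb
    rw [not_and_or] at h
    unfold FourthPowOne at h
    push Not at h
    exact h

end Pool.Agent.Results.MP_0f5a55_nt.DegreeFour
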