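import Mathlib
import Pool.Agent.Lib.MP_0f5a55_nt.OM.K056
import Pool.Agent.Lib.MP_0f5a55_nt.EX.General
import Pool.Agent.Lib.MP_0f5a55_nt.DL.Up
import Pool.Agent.Lib.MP_0f5a55_nt.DL.Poly
import Pool.Agent.Lib.MP_0f5a55_nt.DL.Mult

/-!
Multiplicities of critical zeros for one or two shifted characters `(χ, a)`, or for any number of shifts `a + j h`, `j ∈ J`,
of one character, summed over finitely many dilations `g ↦ ρ g`: odd and bounded at a positive proportion of the heights;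
more generally for integer valued functions `N 1, ..., N k` such that `N 1 (r 1 g) + ... + N k (r k g)` has the parity of this
sum wherever the sum is at most `m` (for example total multiplicities for products of any number of L-functions).
Unconditional. `odd_bounded`: the case `k = 1`; `planes`: fields of large degree.
-/

open Complex Filter Topology Set

namespace Pool.Agent.Results.MP_0f5a55_nt.ShiftedSums

/-- Primitive Dirichlet characters of all moduli (`n + 1` is the modulus). -/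
def Prim : Type := {χ : (Σ n : ℕ, DirichletCharacter ℂ (n + 1)) // χ.2.IsPrimitive}

/-- The Dirichlet L-function (for modulus 1 the Riemann zeta function). -/
noncomputable def L (χ : Prim) (s : ℂ) : ℂ := DirichletCharacter.LFunction χ.1.2 s

/-- The multiplicity of `1/2 + ig` as a zero of `L(s, χ)` (`0` if it is not a zero). -/
noncomputable def mult (χ : Prim) (g : ℝ) : ℕ := analyticOrderNatAt (L χ) (1/2 + g * I)

private theorem ne_one (t : ℝ) : (1 / 2 + t * I : ℂ) ∈ ({1}ᶜ : Set ℂ) := by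
  intro h
  have := congrArg Complex.re h
  norm_num at this

private theorem an (χ : Prim) : AnalyticOnNhd ℂ (L χ) {1}ᶜ := by
  apply DifferentiableOn.analyticOnNhd _ isOpen_compl_singleton
  intro s hs
  exact (DirichletCharacter.differentiableAt_LFunction χ.1.2 s (Or.inl hs)).differentiableWithinAt

private theorem top (χ : Prim) (t : ℝ) : analyticOrderAt (L χ) (1 / 2 + t * I) ≠ ⊤ := by
  intro htop
  have hpre : IsPreconnected ({1}ᶜ : Set ℂ) :=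
    (isConnected_compl_singleton_of_one_lt_rank (by simp) 1).isPreconnected
  have h0 : L χ =ᶠ[𝓝 (1 / 2 + t * I : ℂ)] 0 := by
    rw [analyticOrderAt_eq_top] at htop
    exact htop
  have h1 : EqOn (L χ) 0 {1}ᶜ :=
    (an χ).eqOn_zero_of_preconnected_of_eventuallyEq_zero hpre (ne_one t) h0
  have h2 : L χ 2 = 0 := h1 (by norm_num : (2 : ℂ) ∈ ({1}ᶜ : Set ℂ))
  have h3 : L χ 2 ≠ 0 :=
    DirichletCharacter.LFunction_ne_zero_of_one_le_re χ.1.2 (Or.inr (by norm_num)) (by norm_num)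
  exact h3 h2

private theorem fin (χ : Prim) (a b : ℝ) : {g : ℝ | a ≤ g ∧ g ≤ b ∧ Odd (mult χ g)}.Finite :=
  OO.F_fin_gen (L χ) (fun t => an χ _ (ne_one t)) (fun t => top χ t) a b

private theorem main : ∃ c : ℝ, 0 < c ∧ ∀ D : Finset (Prim × ℝ), D.Nonempty → D.card ≤ 2 →
    ∃ T₀ : ℝ, 2 ≤ T₀ ∧ ∀ (κ : Type) [Fintype κ] (N : κ → ℝ → ℤ) (T : ℝ), T₀ ≤ T →
      (∀ g : ℝ, 0 < g → g ≤ T → Even ((∑ i, N i g) - ∑ x ∈ D, (mult x.1 (g + x.2) : ℤ))) →
      (∀ i, {g : ℝ | 0 < g ∧ g ≤ T ∧ Odd (N i g)}.Finite) →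
        c * (T * Real.log T) ≤ ∑ i, ({g : ℝ | 0 < g ∧ g ≤ T ∧ Odd (N i g)}.ncard : ℝ) := by
  obtain ⟨c, hc, H⟩ := OO.odd_main_abs3
  refine ⟨c / 16, by positivity, fun D h0 h2 => ?_⟩
  obtain ⟨T0, hT0, h⟩ := P0F.main_general (m := mult) fin hc (by
    intro χ ψ a hne
    have h12 : OO.Ne12 χ.1.2 ψ.1.2 ∨ a ≠ 0 := by
      rcases hne with hne | h
      · refine Or.inl (OO.ne12_of_prim χ.2 ψ.2 ?_)
        intro h
        apply hne
        rcases χ with ⟨⟨n, x⟩, hx⟩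
        rcases ψ with ⟨⟨m, b⟩, hb⟩
        exact Subtype.ext h
      · exact Or.inr h
    obtain ⟨T0, hT0, h⟩ := H _ _ χ.1.2 ψ.1.2 a χ.2 ψ.2 h12
    exact ⟨T0, hT0, fun T hT => (h T hT).2⟩) D h0 h2
  refine ⟨T0, hT0, fun κ _ N T hT hN hf => h κ N T hT (fun g g0 gT => ?_) hf⟩
  have := hN g g0 gT
  push_cast
  exact this

private theorem low_pos (J : Finset ℤ) (hJ : J.Nonempty) : ∃ c : ℝ, 0 < c ∧ ∀ (χ : Prim) (a h : ℝ), 0 < h →
    ∃ T₀ : ℝ, 2 ≤ T₀ ∧ ∀ T : ℝ, T₀ ≤ T → c * (T * Real.log T) ≤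
      ({g : ℝ | 0 < g ∧ g ≤ T ∧ Odd (∑ j ∈ J, (mult χ (g + (a + j * h)) : ℤ))}.ncard : ℝ) := by
  classical
  obtain ⟨c, hc, H⟩ := main
  obtain ⟨s, e, N, hN, hs⟩ := DL.translates J hJ
  refine ⟨c / (4 * (s.card + 1)), by positivity, fun χ a h hh => ?_⟩
  obtain ⟨f, hf⟩ : ∃ f : ℝ → ℤ, ∀ g, f g = ∑ j ∈ J, (mult χ (g + (a + j * h)) : ℤ) := ⟨_, fun _ => rfl⟩
  have hfin : ∀ T : ℝ, {g : ℝ | 0 < g ∧ g ≤ T ∧ Odd (f g)}.Finite := by
    intro T
    refine (J.finite_toSet.biUnion fun j _ => (fin χ (a + j * h) (T + (a + j * h))).preimage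
      (f := fun g => g + (a + j * h)) (add_left_injective _).injOn).subset ?_
    rintro g ⟨g0, gT, go⟩
    rw [hf] at go
    obtain ⟨j, hj, h4⟩ := DL.odd_term _ _ go
    exact Set.mem_biUnion (by exact_mod_cast hj) ⟨by linarith, by linarith, by exact_mod_cast h4⟩
  have hne : (χ, a + e * h) ≠ (χ, a + (e + N) * h) := by
    intro h1
    have h2 := congrArg Prod.snd h1
    simp only at h2
    have h3 : (N : ℝ) * h = 0 := by linarith
    have h4 : (0 : ℝ) < N := by exact_mod_cast hN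
    have h5 : 0 < (N : ℝ) * h := by positivity
    linarith
  obtain ⟨T0, hT0, hmain⟩ := H ({(χ, a + e * h), (χ, a + (e + N) * h)} : Finset (Prim × ℝ)) (by simp)
    Finset.card_le_two
  have hpar : ∀ g : ℝ, Even ((∑ b ∈ s, f (g + b * h)) -
      ∑ x ∈ ({(χ, a + e * h), (χ, a + (e + N) * h)} : Finset (Prim × ℝ)), (mult x.1 (g + x.2) : ℤ)) := by
    intro g
    rw [Finset.sum_pair hne, ← ZMod.intCast_eq_zero_iff_even]
    have h5 := hs (fun x => ((mult χ x : ℤ) : ZMod 2)) h (g + a)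
    push_cast at h5 ⊢
    have h6 : ∑ b ∈ s, ((f (g + b * h) : ℤ) : ZMod 2) = (mult χ (g + (a + e * h)) : ZMod 2) +
        (mult χ (g + (a + (e + N) * h)) : ZMod 2) := by
      rw [← add_assoc g a, ← add_assoc g a, ← h5]
      refine Finset.sum_congr rfl fun b _ => ?_
      rw [hf]
      push_cast
      refine Finset.sum_congr rfl fun j _ => ?_
      congr 2
      ring
    rw [h6, sub_self]
  obtain ⟨T1, hT1, h1⟩ := DL.tr_count f hfin s h hh c T0 hc hT0 (fun T hT => by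
    have h3 := hmain s (fun b g => f (g + b * h)) T hT ?_ ?_
    · rw [← Finset.sum_coe_sort s (fun b => ({g : ℝ | 0 < g ∧ g ≤ T ∧ Odd (f (g + b * h))}.ncard : ℝ))]
      exact h3
    · intro g _ _
      rw [Finset.sum_coe_sort s (fun b => f (g + b * h))]
      exact hpar g
    · intro b
      have hb : 0 ≤ (b : ℕ) * h := by positivity
      refine ((hfin (T + (b : ℕ) * h)).preimage (f := fun g => g + (b : ℕ) * h) (add_left_injective _).injOn).subset ?_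
      rintro g ⟨g0, gT, go⟩
      exact ⟨by positivity, by simp only; linarith, go⟩)
  refine ⟨T1, hT1, fun T hT => ?_⟩
  have h3 := h1 T hT
  simp only [hf] at h3
  exact h3

private theorem low (J : Finset ℤ) (hJ : J.Nonempty) : ∃ c : ℝ, 0 < c ∧ ∀ D : Finset (Prim × ℝ),
    (D.Nonempty ∧ D.card ≤ 2 ∨ ∃ (χ : Prim) (a h : ℝ), h ≠ 0 ∧ ∀ x, x ∈ D ↔ ∃ j ∈ J, x = (χ, a + j * h)) →
    D.card ≤ J.card + 2 ∧ ∃ T₀ : ℝ, 2 ≤ T₀ ∧ ∀ T : ℝ, T₀ ≤ T → c * (T * Real.log T) ≤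
      ({g : ℝ | 0 < g ∧ g ≤ T ∧ Odd (∑ x ∈ D, (mult x.1 (g + x.2) : ℤ))}.ncard : ℝ) := by
  classical
  obtain ⟨c, hc, H⟩ := main
  obtain ⟨c1, hc1, H1⟩ := low_pos J hJ
  obtain ⟨c2, hc2, H2⟩ := low_pos (J.image fun j => -j) (hJ.image _)
  have hmin : 0 < min c (min c1 c2) := lt_min hc (lt_min hc1 hc2)
  refine ⟨min c (min c1 c2), hmin, fun D hD => ?_⟩
  have hmono : ∀ (d T : ℝ), min c (min c1 c2) ≤ d → 2 ≤ T → min c (min c1 c2) * (T * Real.log T) ≤ d * (T * Real.log T) := by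
    intro d T hd hT
    have : 0 ≤ Real.log T := Real.log_nonneg (by linarith)
    exact mul_le_mul_of_nonneg_right hd (by positivity)
  rcases hD with ⟨h0, h2⟩ | ⟨χ, a, h, hh, hD⟩
  · refine ⟨by omega, ?_⟩
    obtain ⟨T0, hT0, hmain⟩ := H D h0 h2
    refine ⟨T0, hT0, fun T hT => (hmono c T (min_le_left _ _) (hT0.trans hT)).trans ?_⟩
    have h3 := hmain Unit (fun _ g => ∑ x ∈ D, (mult x.1 (g + x.2) : ℤ)) T hT (by
      intro g _ _
      simp) (fun _ => by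
        have e : ∀ g : ℝ, Odd (∑ x ∈ D, (mult x.1 (g + x.2) : ℤ)) ↔ Odd (∑ x ∈ D, mult x.1 (g + x.2)) := by
          intro g
          rw [← Int.odd_coe_nat]
          push_cast
          rfl
        simp only [e]
        exact P0F.Od_finite fin D T)
    simpa only [Finset.univ_unique, Finset.sum_const, Finset.card_singleton, one_smul] using h3
  · have hinj : Set.InjOn (fun j : ℤ => ((χ, a + j * h) : Prim × ℝ)) J := by
      intro i _ j _ hij
      have h1 := congrArg Prod.snd hij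
      simp only at h1
      have h2 : ((i : ℝ) - j) * h = 0 := by linarith
      rcases mul_eq_zero.1 h2 with h3 | h3
      · exact_mod_cast sub_eq_zero.1 h3
      · exact absurd h3 hh
    have hDJ : D = J.image fun j : ℤ => ((χ, a + j * h) : Prim × ℝ) := by
      ext x
      rw [hD, Finset.mem_image]
      exact ⟨fun ⟨j, hj, h1⟩ => ⟨j, hj, h1.symm⟩, fun ⟨j, hj, h1⟩ => ⟨j, hj, h1.symm⟩⟩
    have hsum : ∀ g : ℝ, ∑ x ∈ D, (mult x.1 (g + x.2) : ℤ) = ∑ j ∈ J, (mult χ (g + (a + j * h)) : ℤ) := by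
      intro g
      rw [hDJ, Finset.sum_image hinj]
    refine ⟨?_, ?_⟩
    · rw [hDJ]
      exact Finset.card_image_le.trans (by omega)
    · simp only [hsum]
      rcases lt_or_gt_of_ne hh with h0 | h0
      · obtain ⟨T0, hT0, h1⟩ := H2 χ a (-h) (by linarith)
        refine ⟨T0, hT0, fun T hT => (hmono c2 T ((min_le_right _ _).trans (min_le_right _ _)) (hT0.trans hT)).trans ?_⟩
        have h3 := h1 T hT
        have h4 : ∀ g : ℝ, ∑ j ∈ J.image (fun j => -j), (mult χ (g + (a + j * (-h))) : ℤ) =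
            ∑ j ∈ J, (mult χ (g + (a + j * h)) : ℤ) := by
          intro g
          rw [Finset.sum_image (fun i _ j _ hij => neg_injective hij)]
          refine Finset.sum_congr rfl fun j _ => ?_
          push_cast
          rw [neg_mul_neg]
        simp only [h4] at h3
        exact h3
      · obtain ⟨T0, hT0, h1⟩ := H1 χ a h h0
        exact ⟨T0, hT0, fun T hT => (hmono c1 T ((min_le_right _ _).trans (min_le_left _ _)) (hT0.trans hT)).trans (h1 T hT)⟩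

private theorem main1 (R : Finset ℝ) (hR : R.Nonempty) (hpos : ∀ ρ ∈ R, 0 < ρ) (J : Finset ℤ)
    (hJ : J.Nonempty) :
    ∃ c : ℝ, 0 < c ∧ ∀ D : Finset (Prim × ℝ),
      (D.Nonempty ∧ D.card ≤ 2 ∨ ∃ (χ : Prim) (a h : ℝ), h ≠ 0 ∧ ∀ x, x ∈ D ↔ ∃ j ∈ J, x = (χ, a + j * h)) →
      ∃ T₀ : ℝ, 2 ≤ T₀ ∧ ∀ (κ : Type) [Fintype κ] (N : κ → ℝ → ℤ) (r : κ → ℝ) (T : ℝ), (∀ i, 0 < r i) → T₀ ≤ T →
        (∀ g : ℝ, 0 < g → g ≤ T →
          Even ((∑ i, N i (r i * g)) - ∑ ρ ∈ R, ∑ x ∈ D, (mult x.1 (ρ * g + x.2) : ℤ))) →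
        (∀ i, {g : ℝ | 0 < g ∧ g ≤ r i * T ∧ Odd (N i g)}.Finite) →
          c * (T * Real.log T) ≤ ∑ i, ({g : ℝ | 0 < g ∧ g ≤ r i * T ∧ Odd (N i g)}.ncard : ℝ) := by
  obtain ⟨c, hc, H⟩ := low J hJ
  obtain ⟨C, hC, U⟩ := DL.odd_up
  obtain ⟨c', hc', hdil⟩ := DL.dil R hR hpos c ((J.card + 2) * C) hc (by positivity)
  refine ⟨c', hc', fun D hD => ?_⟩
  obtain ⟨h2, T0, hT0, h⟩ := H D hD
  have hU : ∀ x : Prim × ℝ, ∃ T₀ : ℝ, 2 ≤ T₀ ∧ ∀ T : ℝ, T₀ ≤ T →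
      {g : ℝ | 0 < g ∧ g ≤ T ∧ Odd (mult x.1 (g + x.2))}.Finite ∧
      ({g : ℝ | 0 < g ∧ g ≤ T ∧ Odd (mult x.1 (g + x.2))}.ncard : ℝ) ≤ C * (T * Real.log T) :=
    fun x => U x.1.1.1 x.1.1.2 x.1.2 x.2
  choose t ht hup using hU
  obtain ⟨f, hf⟩ : ∃ f : ℝ → ℤ, ∀ g, f g = ∑ x ∈ D, (mult x.1 (g + x.2) : ℤ) := ⟨_, fun _ => rfl⟩
  have hodd : ∀ g, Odd (f g) ↔ Odd (∑ x ∈ D, mult x.1 (g + x.2)) := by
    intro g
    rw [hf, ← Int.odd_coe_nat]
    push_cast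
    rfl
  have hfin : ∀ T : ℝ, {g : ℝ | 0 < g ∧ g ≤ T ∧ Odd (f g)}.Finite := by
    intro T
    simp only [hodd]
    exact P0F.Od_finite fin D T
  obtain ⟨S, hST, hSt⟩ : ∃ S : ℝ, T0 ≤ S ∧ ∀ x ∈ D, t x ≤ S := by
    refine ⟨T0 + ∑ x ∈ D, t x, ?_, fun x hx => ?_⟩
    · have : 0 ≤ ∑ x ∈ D, t x := Finset.sum_nonneg fun x _ => by linarith [ht x]
      linarith
    · have := Finset.single_le_sum (f := t) (fun y _ => by linarith [ht y]) hx
      linarith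
  have hlow : ∀ T : ℝ, S ≤ T → c * (T * Real.log T) ≤ ({g : ℝ | 0 < g ∧ g ≤ T ∧ Odd (f g)}.ncard : ℝ) := by
    intro T hT
    simp only [hf]
    exact h T (hST.trans hT)
  have hupp : ∀ T : ℝ, S ≤ T → ({g : ℝ | 0 < g ∧ g ≤ T ∧ Odd (f g)}.ncard : ℝ) ≤
      (J.card + 2) * C * (T * Real.log T) := by
    intro T hT
    have hT2 : 2 ≤ T := hT0.trans (hST.trans hT)
    have hlog : 0 ≤ Real.log T := Real.log_nonneg (by linarith)
    have h3 := DL.count_union D {g : ℝ | 0 < g ∧ g ≤ T ∧ Odd (f g)}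
      (fun x => {g : ℝ | 0 < g ∧ g ≤ T ∧ Odd (mult x.1 (g + x.2))})
      (fun x hx => (hup x T ((hSt x hx).trans hT)).1) ?_
    · refine h3.trans ((Finset.sum_le_sum fun x hx => (hup x T ((hSt x hx).trans hT)).2).trans ?_)
      rw [Finset.sum_const, nsmul_eq_mul]
      have h4 : (D.card : ℝ) ≤ J.card + 2 := by exact_mod_cast h2
      have h5 : 0 ≤ C * (T * Real.log T) := by positivity
      rw [mul_assoc]
      exact mul_le_mul_of_nonneg_right h4 h5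
    · rintro g ⟨g0, gT, go⟩
      rw [hf] at go
      obtain ⟨x, hx, h4⟩ := DL.odd_term _ _ go
      exact Set.mem_biUnion (by exact_mod_cast hx) ⟨g0, gT, by exact_mod_cast h4⟩
  obtain ⟨T1, hT1, h1⟩ := hdil f S (hT0.trans hST) hfin hlow hupp
  refine ⟨T1, hT1, fun κ _ N r T hr hT hN hNf => (h1 T hT).trans ?_⟩
  have h3 := DL.count_union Finset.univ {g : ℝ | 0 < g ∧ g ≤ T ∧ Odd (∑ ρ ∈ R, f (ρ * g))}
    (fun i => {g : ℝ | 0 < g ∧ g ≤ T ∧ Odd (N i (r i * g))}) ?_ ?_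
  · refine h3.trans (le_of_eq (Finset.sum_congr rfl fun i _ => ?_))
    rw [DL.scale_card (fun x => Odd (N i x)) (hr i) T]
  · intro i _
    refine ((hNf i).preimage (f := fun g => r i * g) (mul_right_injective₀ (hr i).ne').injOn).subset ?_
    rintro g ⟨g0, gT, go⟩
    exact ⟨mul_pos (hr i) g0, mul_le_mul_of_nonneg_left gT (hr i).le, go⟩
  · rintro g ⟨g0, gT, go⟩
    have h4 := hN g g0 gT
    simp only [hf] at go
    have h5 : Odd (∑ i, N i (r i * g)) := by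
      have h6 := h4.add_odd go
      rwa [sub_add_cancel] at h6
    obtain ⟨i, hi, h6⟩ := DL.odd_term _ _ h5
    exact Set.mem_biUnion (x := i) (by simp) ⟨g0, gT, h6⟩

/-- upper bound for the sum of the multiplicities at the points `ρ g + a` -/
private theorem up_one : ∃ C : ℝ, 0 < C ∧ ∀ (x : Prim × ℝ) (ρ : ℝ), 0 < ρ → ∃ T₀ : ℝ, 2 ≤ T₀ ∧ ∀ T : ℝ, T₀ ≤ T →
    ∀ A : Finset ℝ, (∀ g ∈ A, 0 < g ∧ g ≤ T) →
      ∑ g ∈ A, (mult x.1 (ρ * g + x.2) : ℝ) ≤ C * (ρ + 1) * (T * Real.log T) := by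
  classical
  obtain ⟨C, hC, H⟩ := DL.mult_up
  refine ⟨2 * C, by positivity, fun x ρ hρ => ?_⟩
  obtain ⟨T0, hT0, h⟩ := H x.1.1.1 x.1.1.2 x.1.2
  refine ⟨max T0 (max |x.2| (ρ + 1)), hT0.trans (le_max_left _ _), fun T hT A hA => ?_⟩
  have h1 : T0 ≤ T := (le_max_left _ _).trans hT
  have h2 : |x.2| ≤ T := ((le_max_left _ _).trans (le_max_right _ _)).trans hT
  have h3 : ρ + 1 ≤ T := ((le_max_right _ _).trans (le_max_right _ _)).trans hT
  have hT2 : 2 ≤ T := hT0.trans h1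
  have hinj : Function.Injective fun g : ℝ => ρ * g + x.2 := by
    intro a b hab
    have h4 : ρ * a = ρ * b := add_right_cancel hab
    exact mul_left_cancel₀ hρ.ne' h4
  have hle : T ≤ (ρ + 1) * T := by nlinarith
  have h4 := h ((ρ + 1) * T) (h1.trans hle) (A.image fun g => ρ * g + x.2) (by
    intro g hg
    obtain ⟨y, hy, rfl⟩ := Finset.mem_image.1 hg
    obtain ⟨y0, yT⟩ := hA y hy
    have h5 := abs_le.1 h2
    have h6 : ρ * y ≤ ρ * T := mul_le_mul_of_nonneg_left yT hρ.le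
    have h7 : 0 < ρ * y := mul_pos hρ y0
    rw [abs_le]
    constructor <;> linarith [h5.1, h5.2])
  rw [Finset.sum_image (fun a _ b _ h => hinj h)] at h4
  have h5 : ∑ g ∈ A, (mult x.1 (ρ * g + x.2) : ℝ) = ((∑ g ∈ A, analyticOrderNatAt
      (DirichletCharacter.LFunction x.1.1.2) (1 / 2 + ((ρ * g + x.2 : ℝ) : ℂ) * I) : ℕ) : ℝ) := by
    push_cast
    refine Finset.sum_congr rfl fun g _ => ?_
    unfold mult
    push_cast
    rfl
  rw [h5]
  refine h4.trans ?_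
  have hlog : 0 ≤ Real.log T := Real.log_nonneg (by linarith)
  have h6 : Real.log ((ρ + 1) * T) ≤ 2 * Real.log T := by
    rw [Real.log_mul (by positivity) (by positivity)]
    have h7 : Real.log (ρ + 1) ≤ Real.log T := Real.log_le_log (by positivity) h3
    linarith
  have h7 : (ρ + 1) * T * Real.log ((ρ + 1) * T) ≤ (ρ + 1) * T * (2 * Real.log T) :=
    mul_le_mul_of_nonneg_left h6 (by positivity)
  have h8 := mul_le_mul_of_nonneg_left h7 hC.le
  refine h8.trans (le_of_eq ?_)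
  ring

/-- odd and bounded -/
private theorem main2 (R : Finset ℝ) (hR : R.Nonempty) (hpos : ∀ ρ ∈ R, 0 < ρ) (J : Finset ℤ) (hJ : J.Nonempty) :
    ∃ (c : ℝ) (m : ℕ), 0 < c ∧ ∀ D : Finset (Prim × ℝ),
      (D.Nonempty ∧ D.card ≤ 2 ∨ ∃ (χ : Prim) (a h : ℝ), h ≠ 0 ∧ ∀ x, x ∈ D ↔ ∃ j ∈ J, x = (χ, a + j * h)) →
      ∃ T₀ : ℝ, 2 ≤ T₀ ∧ ∀ (κ : Type) [Fintype κ] (N : κ → ℝ → ℤ) (r : κ → ℝ) (T : ℝ), (∀ i, 0 < r i) → T₀ ≤ T →
        (∀ g : ℝ, 0 < g → g ≤ T → ∑ ρ ∈ R, ∑ x ∈ D, mult x.1 (ρ * g + x.2) ≤ m →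
          Even ((∑ i, N i (r i * g)) - ∑ ρ ∈ R, ∑ x ∈ D, (mult x.1 (ρ * g + x.2) : ℤ))) →
        (∀ i, {g : ℝ | 0 < g ∧ g ≤ r i * T ∧ Odd (N i g)}.Finite) →
          c * (T * Real.log T) ≤ ∑ i, ({g : ℝ | 0 < g ∧ g ≤ r i * T ∧ Odd (N i g)}.ncard : ℝ) := by
  classical
  obtain ⟨c, hc, H⟩ := main1 R hR hpos J hJ
  obtain ⟨C, hC, U⟩ := up_one
  obtain ⟨E, hE⟩ : ∃ E : ℝ, E = (J.card + 2) * (C * ∑ ρ ∈ R, (ρ + 1)) := ⟨_, rfl⟩
  have hE0 : 0 ≤ E := by
    have : 0 ≤ ∑ ρ ∈ R, (ρ + 1) := Finset.sum_nonneg fun ρ hρ => by linarith [hpos ρ hρ]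
    rw [hE]
    positivity
  refine ⟨c / 2, ⌈2 * E / c⌉₊, by positivity, fun D hD => ?_⟩
  have hDc : (D.card : ℝ) ≤ J.card + 2 := by
    rcases hD with ⟨_, h2⟩ | ⟨χ, a, h, hh, hD⟩
    · have : D.card ≤ J.card + 2 := by omega
      exact_mod_cast this
    · have h1 : D ⊆ J.image fun j : ℤ => ((χ, a + j * h) : Prim × ℝ) := by
        intro x hx
        obtain ⟨j, hj, rfl⟩ := (hD x).1 hx
        exact Finset.mem_image_of_mem _ hj
      have h2 := (Finset.card_le_card h1).trans Finset.card_image_le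
      have : D.card ≤ J.card + 2 := by omega
      exact_mod_cast this
  obtain ⟨T0, hT0, h⟩ := H D hD
  choose! t ht hup using fun (x : Prim × ℝ) (ρ : ℝ) => U x ρ
  obtain ⟨S, hST, hSt⟩ : ∃ S : ℝ, T0 ≤ S ∧ ∀ ρ ∈ R, ∀ x ∈ D, t x ρ ≤ S := by
    refine ⟨T0 + ∑ ρ ∈ R, ∑ x ∈ D, |t x ρ|, ?_, fun ρ hρ x hx => ?_⟩
    · have : 0 ≤ ∑ ρ ∈ R, ∑ x ∈ D, |t x ρ| := Finset.sum_nonneg fun _ _ => Finset.sum_nonneg fun _ _ => abs_nonneg _
      linarith
    · have h1 := Finset.single_le_sum (f := fun y => |t y ρ|) (fun y _ => abs_nonneg _) hx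
      have h2 := Finset.single_le_sum (f := fun σ => ∑ y ∈ D, |t y σ|)
        (fun σ _ => Finset.sum_nonneg fun _ _ => abs_nonneg _) hρ
      have h3 := le_abs_self (t x ρ)
      linarith
  refine ⟨S, hT0.trans hST, fun κ _ N r T hr hT hN hNf => ?_⟩
  have hT2 : 2 ≤ T := (hT0.trans hST).trans hT
  have hlog : 0 ≤ Real.log T := Real.log_nonneg (by linarith)
  obtain ⟨f, hf⟩ : ∃ f : ℝ → ℕ, ∀ g, f g = ∑ ρ ∈ R, ∑ x ∈ D, mult x.1 (ρ * g + x.2) := ⟨_, fun _ => rfl⟩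
  obtain ⟨m, hm⟩ : ∃ m : ℕ, m = ⌈2 * E / c⌉₊ := ⟨_, rfl⟩
  rw [← hm] at hN
  simp only [← hf] at hN
  have hfc : ∀ g, (∑ ρ ∈ R, ∑ x ∈ D, (mult x.1 (ρ * g + x.2) : ℤ)) = (f g : ℤ) := by
    intro g
    rw [hf]
    push_cast
    rfl
  simp only [hfc] at hN
  -- the odd set
  have hOfin : {g : ℝ | 0 < g ∧ g ≤ T ∧ Odd (f g)}.Finite := by
    refine (R.finite_toSet.biUnion fun ρ hρ => D.finite_toSet.biUnion fun x hx =>
      (fin x.1 x.2 (ρ * T + x.2)).preimage (f := fun g => ρ * g + x.2) ?_).subset ?_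
    · intro a _ b _ hab
      have h4 : ρ * a = ρ * b := add_right_cancel hab
      exact mul_left_cancel₀ (hpos ρ hρ).ne' h4
    · rintro g ⟨g0, gT, go⟩
      have h1 : Odd ((f g : ℕ) : ℤ) := by exact_mod_cast go
      rw [← hfc] at h1
      obtain ⟨ρ, hρ, h2⟩ := DL.odd_term _ _ h1
      obtain ⟨x, hx, h3⟩ := DL.odd_term _ _ h2
      have h4 := mul_pos (hpos ρ hρ) g0
      have h5 := mul_le_mul_of_nonneg_left gT (hpos ρ hρ).le
      exact Set.mem_biUnion (by exact_mod_cast hρ) (Set.mem_biUnion (by exact_mod_cast hx)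
        ⟨by linarith, by linarith, by exact_mod_cast h3⟩)
  have hlow : c * (T * Real.log T) ≤ ({g : ℝ | 0 < g ∧ g ≤ T ∧ Odd (f g)}.ncard : ℝ) := by
    have h1 := h Unit (fun _ g => (f g : ℤ)) (fun _ => 1) T (fun _ => one_pos) (hST.trans hT) (by
      intro g _ _
      rw [hfc]
      simp) (by simpa only [one_mul, Int.odd_coe_nat] using fun _ => hOfin)
    simpa only [one_mul, Int.odd_coe_nat, Finset.univ_unique, Finset.sum_const, Finset.card_singleton,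
      one_smul] using h1
  -- the points of large multiplicity
  have hBfin : {g : ℝ | 0 < g ∧ g ≤ T ∧ Odd (f g) ∧ m < f g}.Finite :=
    hOfin.subset fun g hg => ⟨hg.1, hg.2.1, hg.2.2.1⟩
  have hsum : ∑ g ∈ hBfin.toFinset, (f g : ℝ) ≤ E * (T * Real.log T) := by
    have h1 : ∑ g ∈ hBfin.toFinset, (f g : ℝ) =
        ∑ ρ ∈ R, ∑ x ∈ D, ∑ g ∈ hBfin.toFinset, (mult x.1 (ρ * g + x.2) : ℝ) := by
      have h2 : ∀ g, (f g : ℝ) = ∑ ρ ∈ R, ∑ x ∈ D, (mult x.1 (ρ * g + x.2) : ℝ) := by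
        intro g
        rw [hf]
        push_cast
        rfl
      simp only [h2]
      rw [Finset.sum_comm]
      refine Finset.sum_congr rfl fun ρ _ => ?_
      rw [Finset.sum_comm]
    rw [h1]
    have h2 : ∀ ρ ∈ R, ∑ x ∈ D, ∑ g ∈ hBfin.toFinset, (mult x.1 (ρ * g + x.2) : ℝ) ≤
        (J.card + 2) * (C * (ρ + 1) * (T * Real.log T)) := by
      intro ρ hρ
      have h3 : ∀ x ∈ D, ∑ g ∈ hBfin.toFinset, (mult x.1 (ρ * g + x.2) : ℝ) ≤ C * (ρ + 1) * (T * Real.log T) := by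
        intro x hx
        exact hup x ρ (hpos ρ hρ) T ((hSt ρ hρ x hx).trans hT) _ fun g hg => by
          have h4 := hBfin.mem_toFinset.1 hg
          exact ⟨h4.1, h4.2.1⟩
      refine (Finset.sum_le_sum h3).trans ?_
      rw [Finset.sum_const, nsmul_eq_mul]
      have h4 : 0 ≤ C * (ρ + 1) * (T * Real.log T) := by
        have := hpos ρ hρ
        positivity
      exact mul_le_mul_of_nonneg_right hDc h4
    refine (Finset.sum_le_sum h2).trans (le_of_eq ?_)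
    rw [hE, ← Finset.mul_sum, ← Finset.sum_mul, ← Finset.mul_sum]
    ring
  have hB : ({g : ℝ | 0 < g ∧ g ≤ T ∧ Odd (f g) ∧ m < f g}.ncard : ℝ) ≤ c / 2 * (T * Real.log T) := by
    rw [Set.ncard_eq_toFinset_card _ hBfin]
    have h1 : (hBfin.toFinset.card : ℝ) * (2 * E / c) ≤ ∑ g ∈ hBfin.toFinset, (f g : ℝ) := by
      rw [← nsmul_eq_mul, ← Finset.sum_const]
      refine Finset.sum_le_sum fun g hg => ?_
      have h2 := (hBfin.mem_toFinset.1 hg).2.2.2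
      have h3 : 2 * E / c ≤ m := by
        rw [hm]
        exact Nat.le_ceil _
      have h4 : (m : ℝ) ≤ f g := by exact_mod_cast h2.le
      linarith
    have h2 := h1.trans hsum
    rcases eq_or_lt_of_le hE0 with h0 | h0
    · -- E = 0: impossible, but then the sum is zero and the set is empty
      have h3 : ∑ g ∈ hBfin.toFinset, (1 : ℝ) ≤ ∑ g ∈ hBfin.toFinset, (f g : ℝ) := by
        refine Finset.sum_le_sum fun g hg => ?_
        have h4 := (hBfin.mem_toFinset.1 hg).2.2.2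
        exact_mod_cast (by omega : 1 ≤ f g)
      rw [Finset.sum_const, nsmul_eq_mul, mul_one] at h3
      have h5 := h3.trans hsum
      rw [← h0, zero_mul] at h5
      have : 0 ≤ c / 2 * (T * Real.log T) := by positivity
      linarith
    · have h3 : (hBfin.toFinset.card : ℝ) * 2 / c ≤ T * Real.log T := by
        have h4 : (hBfin.toFinset.card : ℝ) * 2 / c * E ≤ T * Real.log T * E := by
          calc (hBfin.toFinset.card : ℝ) * 2 / c * E = (hBfin.toFinset.card : ℝ) * (2 * E / c) := by ring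
            _ ≤ E * (T * Real.log T) := h2
            _ = _ := by ring
        exact le_of_mul_le_mul_right h4 h0
      rw [div_le_iff₀ hc] at h3
      linarith
  have hsplit : ({g : ℝ | 0 < g ∧ g ≤ T ∧ Odd (f g)}.ncard : ℝ) ≤
      ({g : ℝ | 0 < g ∧ g ≤ T ∧ Odd (f g) ∧ m < f g}.ncard : ℝ) +
        ({g : ℝ | 0 < g ∧ g ≤ T ∧ Odd (f g) ∧ f g ≤ m}.ncard : ℝ) := by
    have h1 : {g : ℝ | 0 < g ∧ g ≤ T ∧ Odd (f g)} ⊆
        {g : ℝ | 0 < g ∧ g ≤ T ∧ Odd (f g) ∧ m < f g} ∪ {g : ℝ | 0 < g ∧ g ≤ T ∧ Odd (f g) ∧ f g ≤ m} := by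
      rintro g ⟨g0, gT, go⟩
      rcases lt_or_ge m (f g) with h2 | h2
      · exact Or.inl ⟨g0, gT, go, h2⟩
      · exact Or.inr ⟨g0, gT, go, h2⟩
    have h2 := (Set.ncard_le_ncard h1 (hBfin.union (hOfin.subset fun g hg => ⟨hg.1, hg.2.1, hg.2.2.1⟩))).trans
      (Set.ncard_union_le _ _)
    exact_mod_cast h2
  have hmain : c / 2 * (T * Real.log T) ≤ ({g : ℝ | 0 < g ∧ g ≤ T ∧ Odd (f g) ∧ f g ≤ m}.ncard : ℝ) := by
    linarith
  refine hmain.trans ?_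
  have h3 := DL.count_union Finset.univ {g : ℝ | 0 < g ∧ g ≤ T ∧ Odd (f g) ∧ f g ≤ m}
    (fun i => {g : ℝ | 0 < g ∧ g ≤ T ∧ Odd (N i (r i * g))}) ?_ ?_
  · refine h3.trans (le_of_eq (Finset.sum_congr rfl fun i _ => ?_))
    rw [DL.scale_card (fun x => Odd (N i x)) (hr i) T]
  · intro i _
    refine ((hNf i).preimage (f := fun g => r i * g) (mul_right_injective₀ (hr i).ne').injOn).subset ?_
    rintro g ⟨g0, gT, go⟩
    exact ⟨mul_pos (hr i) g0, mul_le_mul_of_nonneg_left gT (hr i).le, go⟩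
  · rintro g ⟨g0, gT, go, gm⟩
    have h4 := hN g g0 gT gm
    have h5 : Odd (∑ i, N i (r i * g)) := by
      have h6 := h4.add_odd (Int.odd_coe_nat _ |>.2 go)
      rwa [sub_add_cancel] at h6
    obtain ⟨i, hi, h6⟩ := DL.odd_term _ _ h5
    exact Set.mem_biUnion (x := i) (by simp) ⟨g0, gT, h6⟩

/-- For all finite nonempty sets `R` of positive reals and `J` of integers there are `c > 0` and a natural number `m` with the
following property. Let `D` be a set of one or two pairs `(χ, a)`, `χ` a primitive Dirichlet character, `a` real, or the set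
of the pairs `(χ, a + j h)`, `j ∈ J`, for one `χ`, a real `a` and a real `h ≠ 0`. For `g > 0` let `f g` be the sum over
`ρ ∈ R` and `(χ, a) ∈ D` of the multiplicities of `1/2 + i(ρ g + a)` as a zero of `L(s, χ)`. There is `T₀` such that for every
`T ≥ T₀`, any real numbers `r 1, ..., r k > 0` and any functions `N 1, ..., N k` from the reals to the integers for which
`N 1 (r 1 g) + ... + N k (r k g)` has the parity of `f g` at each `g ∈ (0, T]` with `f g ≤ m`: if each of the `k` sets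
`{g ∈ (0, r i T] | N i g is odd}` is finite, then the sum of their numbers of elements is at least `c T log T`. (`R = {1}`,
`J = {0}`: `c` and `m` are absolute constants.) -/
theorem result (R : Finset ℝ) (hR : R.Nonempty) (hpos : ∀ ρ ∈ R, 0 < ρ) (J : Finset ℤ) (hJ : J.Nonempty) :
    ∃ (c : ℝ) (m : ℕ), 0 < c ∧ ∀ D : Finset (Prim × ℝ),
      (D.Nonempty ∧ D.card ≤ 2 ∨ ∃ (χ : Prim) (a h : ℝ), h ≠ 0 ∧ ∀ x, x ∈ D ↔ ∃ j ∈ J, x = (χ, a + j * h)) →
      ∃ T₀ : ℝ, 2 ≤ T₀ ∧ ∀ (k : ℕ) (N : Fin k → ℝ → ℤ) (r : Fin k → ℝ) (T : ℝ), (∀ i, 0 < r i) → T₀ ≤ T →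
        (∀ g : ℝ, 0 < g → g ≤ T → ∑ ρ ∈ R, ∑ x ∈ D, mult x.1 (ρ * g + x.2) ≤ m →
          Even ((∑ i, N i (r i * g)) - ∑ ρ ∈ R, ∑ x ∈ D, (mult x.1 (ρ * g + x.2) : ℤ))) →
        (∀ i, {g : ℝ | 0 < g ∧ g ≤ r i * T ∧ Odd (N i g)}.Finite) →
          c * (T * Real.log T) ≤ ∑ i, ({g : ℝ | 0 < g ∧ g ≤ r i * T ∧ Odd (N i g)}.ncard : ℝ) := by
  obtain ⟨c, m, hc, H⟩ := main2 R hR hpos J hJ
  refine ⟨c, m, hc, fun D hD => ?_⟩
  obtain ⟨T0, hT0, h⟩ := H D hD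
  exact ⟨T0, hT0, fun k N r T hr hT hN hf => h (Fin k) N r T hr hT hN hf⟩

/-- The case `k = 1`: for all finite nonempty sets `R` of positive reals and `J` of integers and for `D` as in `result`, the
sum over `ρ ∈ R` and `(χ, a) ∈ D` of the multiplicities of `1/2 + i(ρ g + a)` as a zero of `L(s, χ)` is one of the odd numbers
`1, 3, ..., ≤ m` at at least `c T log T` of the `g ∈ (0, T]`. -/
theorem odd_bounded (R : Finset ℝ) (hR : R.Nonempty) (hpos : ∀ ρ ∈ R, 0 < ρ) (J : Finset ℤ) (hJ : J.Nonempty) :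
    ∃ (c : ℝ) (m : ℕ), 0 < c ∧ ∀ D : Finset (Prim × ℝ),
      (D.Nonempty ∧ D.card ≤ 2 ∨ ∃ (χ : Prim) (a h : ℝ), h ≠ 0 ∧ ∀ x, x ∈ D ↔ ∃ j ∈ J, x = (χ, a + j * h)) →
      ∃ T₀ : ℝ, 2 ≤ T₀ ∧ ∀ T : ℝ, T₀ ≤ T →
        {g : ℝ | 0 < g ∧ g ≤ T ∧ Odd (∑ ρ ∈ R, ∑ x ∈ D, mult x.1 (ρ * g + x.2)) ∧
          ∑ ρ ∈ R, ∑ x ∈ D, mult x.1 (ρ * g + x.2) ≤ m}.Finite ∧
        c * (T * Real.log T) ≤
          ({g : ℝ | 0 < g ∧ g ≤ T ∧ Odd (∑ ρ ∈ R, ∑ x ∈ D, mult x.1 (ρ * g + x.2)) ∧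
            ∑ ρ ∈ R, ∑ x ∈ D, mult x.1 (ρ * g + x.2) ≤ m}.ncard : ℝ) := by
  obtain ⟨c, m, hc, H⟩ := result R hR hpos J hJ
  refine ⟨c, m, hc, fun D hD => ?_⟩
  obtain ⟨T0, hT0, h⟩ := H D hD
  refine ⟨T0, hT0, fun T hT => ?_⟩
  obtain ⟨f, hf⟩ : ∃ f : ℝ → ℕ, ∀ g, f g = ∑ ρ ∈ R, ∑ x ∈ D, mult x.1 (ρ * g + x.2) := ⟨_, fun _ => rfl⟩
  have hfc : ∀ g, (∑ ρ ∈ R, ∑ x ∈ D, (mult x.1 (ρ * g + x.2) : ℤ)) = (f g : ℤ) := by
    intro g
    rw [hf]
    push_cast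
    rfl
  simp only [← hf]
  simp only [← hf, hfc] at h
  have hfin : {g : ℝ | 0 < g ∧ g ≤ T ∧ Odd (f g) ∧ f g ≤ m}.Finite := by
    refine (R.finite_toSet.biUnion fun ρ hρ => D.finite_toSet.biUnion fun x hx =>
      (fin x.1 x.2 (ρ * T + x.2)).preimage (f := fun g => ρ * g + x.2) ?_).subset ?_
    · intro a _ b _ hab
      have h4 : ρ * a = ρ * b := add_right_cancel hab
      exact mul_left_cancel₀ (hpos ρ hρ).ne' h4
    · rintro g ⟨g0, gT, go, _⟩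
      have h1 : Odd ((f g : ℕ) : ℤ) := by exact_mod_cast go
      rw [← hfc] at h1
      obtain ⟨ρ, hρ, h2⟩ := DL.odd_term _ _ h1
      obtain ⟨x, hx, h3⟩ := DL.odd_term _ _ h2
      have h4 := mul_pos (hpos ρ hρ) g0
      have h5 := mul_le_mul_of_nonneg_left gT (hpos ρ hρ).le
      exact Set.mem_biUnion (by exact_mod_cast hρ) (Set.mem_biUnion (by exact_mod_cast hx)
        ⟨by linarith, by linarith, by exact_mod_cast h3⟩)
  refine ⟨hfin, ?_⟩
  have e : ∀ g, Odd (if f g ≤ m then (f g : ℤ) else 0) ↔ Odd (f g) ∧ f g ≤ m := by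
    intro g
    by_cases h1 : f g ≤ m
    · rw [if_pos h1, Int.odd_coe_nat]
      exact ⟨fun h2 => ⟨h2, h1⟩, fun h2 => h2.1⟩
    · rw [if_neg h1]
      exact ⟨fun h2 => absurd h2 (by decide), fun h2 => absurd h2.2 h1⟩
  have h3 := h 1 (fun _ g => if f g ≤ m then (f g : ℤ) else 0) (fun _ => 1) T (fun _ => one_pos) hT (by
    intro g _ _ hg
    simp [hg]) (by simpa only [e, one_mul] using fun _ => hfin)
  simpa only [e, one_mul, Finset.univ_unique, Finset.sum_const, Finset.card_singleton, one_smul] using h3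

/-- Fields: let `p` be an odd prime and `f v`, for `v` in the three-dimensional space over `ℤ/p`, integer valued functions
such that `f 0` has the parity of the multiplicities for `D` (for instance `f v` the multiplicities for the
`p³` characters of an abelian field with group `(ℤ/p)³`, `D` the trivial character). Let `S i` be the `p² + p + 1` planes
(the characters of the subfields with group `(ℤ/p)²`). Then for every finite nonempty set `R` of positive reals the sums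
over `ρ ∈ R` and `v` in one of the `p² + p + 1` planes of the `f v (ρ g)` are together odd for at least `c T log T` of the
`g ∈ (0, T]`, `T ≥ T₀`; `c` depends on `R` and `J` only. -/
theorem planes (R : Finset ℝ) (hR : R.Nonempty) (hpos : ∀ ρ ∈ R, 0 < ρ) (J : Finset ℤ) (hJ : J.Nonempty) :
    ∃ c : ℝ, 0 < c ∧ ∀ D : Finset (Prim × ℝ),
      (D.Nonempty ∧ D.card ≤ 2 ∨ ∃ (χ : Prim) (a h : ℝ), h ≠ 0 ∧ ∀ x, x ∈ D ↔ ∃ j ∈ J, x = (χ, a + j * h)) →
      ∃ T₀ : ℝ, 2 ≤ T₀ ∧ ∀ (p : ℕ) [Fact p.Prime], p ≠ 2 → ∀ (f : (Fin 3 → ZMod p) → ℝ → ℤ)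
        (S : (ZMod p × ZMod p) ⊕ (ZMod p ⊕ Unit) → Finset (Fin 3 → ZMod p))
        (_ : ∀ i v, v ∈ S i ↔ v ∈ LinearMap.ker (P0F.fn (p := p) i)) (T : ℝ), T₀ ≤ T →
        (∀ g : ℝ, 0 < g → Even (f 0 g - ∑ x ∈ D, (mult x.1 (g + x.2) : ℤ))) →
        (∀ i, {g : ℝ | 0 < g ∧ g ≤ T ∧ Odd (∑ ρ ∈ R, ∑ v ∈ S i, f v (ρ * g))}.Finite) →
          c * (T * Real.log T) ≤
            ∑ i, ({g : ℝ | 0 < g ∧ g ≤ T ∧ Odd (∑ ρ ∈ R, ∑ v ∈ S i, f v (ρ * g))}.ncard : ℝ) := by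
  obtain ⟨c, hc, H⟩ := main1 R hR hpos J hJ
  refine ⟨c, hc, fun D hD => ?_⟩
  obtain ⟨T0, hT0, h⟩ := H D hD
  refine ⟨T0, hT0, fun p _ hp f S hS T hT hf hfin => ?_⟩
  have h3 := h _ (fun i g => ∑ ρ ∈ R, ∑ v ∈ S i, f v (ρ * g)) (fun _ => 1) T (fun _ => one_pos) hT ?_
    (by simpa only [one_mul] using hfin)
  · simpa only [one_mul] using h3
  · intro g g0 gT
    simp only [one_mul]
    rw [Finset.sum_comm, ← Finset.sum_sub_distrib]
    refine Finset.even_sum _ fun ρ hρ => ?_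
    have h1 := P0F.planes_sum hp (fun v => f v (ρ * g)) S hS
    have h4 := h1.add (hf (ρ * g) (mul_pos (hpos ρ hρ) g0))
    simpa only [sub_add_sub_cancel] using h4

end Pool.Agent.Results.MP_0f5a55_nt.ShiftedSums
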